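import Mathlib

set_option maxHeartbeats 400000

namespace Pool.Agent.H.MP_81db1e_al

open Polynomial

variable {k : Type} [Field k]

/-- the representations -/
noncomputable def rep (c : k) : k[X] × k[X] →ₐ[k] RatFunc k × RatFunc k :=
  ((IsScalarTower.toAlgHom k k[X] (RatFunc k)).comp (AlgHom.fst k _ _)).prod
    (((IsScalarTower.toAlgHom k k[X] (RatFunc k)).comp
      (algEquivAevalXAddC (-c)).toAlgHom).comp (AlgHom.snd k _ _))

theorem rep_ap (c : k) (p q : k[X]) : rep c (p, q) =
    (algebraMap k[X] (RatFunc k) p, algebraMap k[X] (RatFunc k) (algEquivAevalXAddC (-c) q)) := rfl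

theorem rep_inj (c : k) : Function.Injective (rep c) := by
  rintro ⟨p, q⟩ ⟨p', q'⟩ h
  rw [rep_ap, rep_ap, Prod.mk.injEq] at h
  rw [RatFunc.algebraMap_injective k h.1,
    (algEquivAevalXAddC (-c)).injective (RatFunc.algebraMap_injective k h.2)]

/-- the families -/
noncomputable def fam (c : k) : Fin 2 → k[X] × k[X] := ![1, (X, X + C c)]

theorem dep (c : k) : ¬ LinearIndependent (RatFunc k) (fun i => rep c (fam c i)) := by
  have e : (fun i => rep c (fam c i)) = ![1, (RatFunc.X : RatFunc k) • 1] := by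
    funext i
    fin_cases i
    · simp [fam]
    · ext <;> simp [fam, rep_ap]
  rw [e, LinearIndependent.pair_iff]
  intro h
  have := (h (-RatFunc.X) 1 (by simp)).2
  exact one_ne_zero this

theorem scal {F A : Type} [Field F] [Ring A] [Algebra F A] [Algebra k A]
    (φ : k[X] × k[X] →ₐ[k] A) (hφ : Function.Injective φ) (c : k)
    (h : ¬ LinearIndependent F (fun i => φ (fam c i))) : ∃ a : F, φ (X, X + C c) = a • 1 := by
  have e : (fun i => φ (fam c i)) = ![1, φ (X, X + C c)] := by
    funext i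
    fin_cases i <;> simp [fam]
  have h1 : (1 : A) ≠ 0 := by
    rw [← map_one φ, ← map_zero φ]
    exact hφ.ne one_ne_zero
  rw [e, LinearIndependent.pair_iff' h1] at h
  push Not at h
  obtain ⟨a, ha⟩ := h
  exact ⟨a, ha.symm⟩

theorem not_both {F A : Type} [Field F] [Ring A] [Algebra F A] [Algebra k A]
    (φ : k[X] × k[X] →ₐ[k] A) (hφ : Function.Injective φ)
    (h0 : ¬ LinearIndependent F (fun i => φ (fam 0 i)))
    (h1 : ¬ LinearIndependent F (fun i => φ (fam 1 i))) : False := by
  obtain ⟨a, ha⟩ := scal φ hφ 0 h0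
  obtain ⟨b, hb⟩ := scal φ hφ 1 h1
  have e : φ (0, 1) = (b - a) • 1 := by
    rw [sub_smul, ← ha, ← hb, ← map_sub]
    simp
  have e2 : (b - a) • φ (1, 0) = 0 := by
    rw [← one_mul (φ (1, 0)), ← smul_mul_assoc, ← e, ← map_mul, ← map_zero φ]
    congr 1
    ext <;> simp
  rcases smul_eq_zero.1 e2 with h | h
  · rw [h, zero_smul, ← map_zero φ] at e
    simpa using hφ e
  · rw [← map_zero φ] at h
    simpa using hφ h

end Pool.Agent.H.MP_81db1e_al
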